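import Pool.Agent.H84.LSB.TargetsHL

/-!
# Board hlm_modules, row CNV
-/

set_option autoImplicit false

open MeasureTheory Set Pool.Agent.H83.G Pool.Agent.H88.B2 Pool.Agent.H84.LSB
open scoped ENNReal NNReal RealInnerProductSpace

namespace Pool.Agent.H60.HLM

/-- the pointwise bound -/
lemma cnv_pt (N : ℕ) (hN : 2 ≤ N) (b x u : ℝ) (hb : 1 ≤ b) :
    ((1 + |x - b * u|) ^ N)⁻¹ * ((1 + |u|) ^ (N + 2))⁻¹ ≤
      4 ^ N * ((1 + |x / b|) ^ N)⁻¹ *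
        (((1 + |x - b * u|) ^ 2)⁻¹ + b⁻¹ * ((1 + |u|) ^ 2)⁻¹) := by
  have hb0 : 0 < b := by linarith
  obtain ⟨A, hA⟩ : ∃ A, A = 1 + |x - b * u| := ⟨_, rfl⟩
  obtain ⟨U, hU⟩ : ∃ U, U = 1 + |u| := ⟨_, rfl⟩
  obtain ⟨X, hX⟩ : ∃ X, X = 1 + |x / b| := ⟨_, rfl⟩
  rw [← hA, ← hU, ← hX]
  have hA1 : 1 ≤ A := by
    rw [hA]
    linarith [abs_nonneg (x - b * u)]
  have hU1 : 1 ≤ U := by
    rw [hU]
    linarith [abs_nonneg u]
  have hX1 : 1 ≤ X := by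
    rw [hX]
    linarith [abs_nonneg (x / b)]
  have hA0 : 0 < A := by linarith
  have hU0 : 0 < U := by linarith
  have hX0 : 0 < X := by linarith
  have hAN : (A ^ N)⁻¹ ≤ (A ^ 2)⁻¹ :=
    inv_anti₀ (by positivity) (pow_le_pow_right₀ hA1 hN)
  have hUN1 : (U ^ (N + 2))⁻¹ ≤ 1 := inv_le_one_of_one_le₀ (one_le_pow₀ hU1)
  have hUN2 : (U ^ (N + 2))⁻¹ ≤ (U ^ 2)⁻¹ :=
    inv_anti₀ (by positivity) (pow_le_pow_right₀ hU1 (by omega))
  have hUNN : (U ^ (N + 2))⁻¹ ≤ (U ^ N)⁻¹ :=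
    inv_anti₀ (by positivity) (pow_le_pow_right₀ hU1 (by omega))
  have h24 : (2 : ℝ) ^ N ≤ 4 ^ N := pow_le_pow_left₀ (by norm_num) (by norm_num) N
  have hbr1 : (A ^ 2)⁻¹ ≤ (A ^ 2)⁻¹ + b⁻¹ * (U ^ 2)⁻¹ := by
    have : 0 ≤ b⁻¹ * (U ^ 2)⁻¹ := by positivity
    linarith
  have hbr2 : b⁻¹ * (U ^ 2)⁻¹ ≤ (A ^ 2)⁻¹ + b⁻¹ * (U ^ 2)⁻¹ := by
    have : 0 ≤ (A ^ 2)⁻¹ := by positivity
    linarith
  -- the first two cases
  have key1 : (U ^ (N + 2))⁻¹ ≤ 4 ^ N * (X ^ N)⁻¹ →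
      (A ^ N)⁻¹ * (U ^ (N + 2))⁻¹ ≤ 4 ^ N * (X ^ N)⁻¹ * ((A ^ 2)⁻¹ + b⁻¹ * (U ^ 2)⁻¹) := by
    intro h
    calc (A ^ N)⁻¹ * (U ^ (N + 2))⁻¹ ≤ (A ^ 2)⁻¹ * (4 ^ N * (X ^ N)⁻¹) :=
          mul_le_mul hAN h (by positivity) (by positivity)
      _ = 4 ^ N * (X ^ N)⁻¹ * (A ^ 2)⁻¹ := mul_comm _ _
      _ ≤ _ := mul_le_mul_of_nonneg_left hbr1 (by positivity)
  rcases le_or_gt (|x / b|) 1 with hx | hx
  · refine key1 (hUN1.trans ?_)
    have h1 : X ≤ 4 := by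
      rw [hX]
      linarith
    have h2 : X ^ N ≤ 4 ^ N := pow_le_pow_left₀ hX0.le h1 N
    rw [← div_eq_mul_inv, le_div_iff₀ (by positivity), one_mul]
    exact h2
  · rcases le_or_gt (|x / b|) (2 * |u|) with hu | hu
    · refine key1 (hUNN.trans ?_)
      have h1 : X ≤ 4 * U := by
        rw [hX, hU]
        linarith [abs_nonneg u]
      have h2 : X ^ N ≤ 4 ^ N * U ^ N := by
        rw [← mul_pow]
        exact pow_le_pow_left₀ hX0.le h1 N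
      rw [← div_eq_mul_inv, inv_eq_one_div, div_le_div_iff₀ (by positivity) (by positivity),
        one_mul]
      exact h2
    · have h1 : b * X ≤ 4 * A := by
        have h3 : |x| = b * |x / b| := by
          rw [abs_div, abs_of_pos hb0, mul_div_cancel₀ _ hb0.ne']
        have h4 : |x| - b * |u| ≤ |x - b * u| := by
          have := abs_sub_abs_le_abs_sub x (b * u)
          rwa [abs_mul, abs_of_pos hb0] at this
        rw [hX, hA]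
        nlinarith [mul_lt_mul_of_pos_left hu hb0, mul_lt_mul_of_pos_left hx hb0]
      have h2 : b * X ^ N ≤ 4 ^ N * A ^ N := by
        have h3 : b * X ^ N ≤ (b * X) ^ N := by
          rw [mul_pow]
          refine mul_le_mul_of_nonneg_right ?_ (by positivity)
          calc b = b ^ 1 := (pow_one b).symm
            _ ≤ b ^ N := pow_le_pow_right₀ hb (by omega)
        refine h3.trans ?_
        rw [← mul_pow]
        exact pow_le_pow_left₀ (by positivity) h1 N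
      have h5 : (A ^ N)⁻¹ ≤ 4 ^ N * (X ^ N)⁻¹ * b⁻¹ := by
        rw [mul_assoc, ← mul_inv, ← div_eq_mul_inv, inv_eq_one_div,
          div_le_div_iff₀ (by positivity) (by positivity), one_mul, mul_comm (X ^ N) b]
        exact h2
      calc (A ^ N)⁻¹ * (U ^ (N + 2))⁻¹ ≤ (4 ^ N * (X ^ N)⁻¹ * b⁻¹) * (U ^ 2)⁻¹ :=
            mul_le_mul h5 hUN2 (by positivity) (by positivity)
        _ = 4 ^ N * (X ^ N)⁻¹ * (b⁻¹ * (U ^ 2)⁻¹) := by ring
        _ ≤ _ := mul_le_mul_of_nonneg_left hbr2 (by positivity)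

lemma cnv_int : Integrable fun t : ℝ => ((1 + |t|) ^ 2)⁻¹ := by
  have h := integrable_one_add_norm (E := ℝ) (μ := volume) (r := 2) (by simp)
  refine h.congr (Filter.Eventually.of_forall fun t => ?_)
  change (1 + ‖t‖) ^ (-(2 : ℝ)) = ((1 + |t|) ^ 2)⁻¹
  rw [Real.rpow_neg (by positivity), Real.norm_eq_abs]
  norm_num

/-- CNV: a one-dimensional convolution -/
theorem pf_CNV : T_CNV := by
  intro N hN
  obtain ⟨J, hJ⟩ : ∃ J, J = ∫ t : ℝ, ((1 + |t|) ^ 2)⁻¹ := ⟨_, rfl⟩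
  have hJ0 : 0 ≤ J := by
    rw [hJ]
    exact integral_nonneg fun t => by positivity
  refine ⟨4 ^ N * (2 * J) + 1, by
    have : (0 : ℝ) ≤ 4 ^ N * (2 * J) := by positivity
    linarith, fun b x hb => ?_⟩
  have hb0 : 0 < b := by linarith
  have i1 : Integrable fun u : ℝ => ((1 + |x - b * u|) ^ 2)⁻¹ := by
    have h1 : Integrable fun v : ℝ => ((1 + |x - v|) ^ 2)⁻¹ := cnv_int.comp_sub_left x
    exact h1.comp_mul_left' hb0.ne'
  have e1 : ∫ u : ℝ, ((1 + |x - b * u|) ^ 2)⁻¹ = b⁻¹ * J := by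
    have h1 := Measure.integral_comp_mul_left (fun v : ℝ => ((1 + |x - v|) ^ 2)⁻¹) b
    rw [h1, abs_of_pos (inv_pos.2 hb0), smul_eq_mul, hJ]
    congr 1
    exact integral_sub_left_eq_self (fun v : ℝ => ((1 + |v|) ^ 2)⁻¹) volume x
  have i2 : Integrable fun u : ℝ => 4 ^ N * ((1 + |x / b|) ^ N)⁻¹ *
      (((1 + |x - b * u|) ^ 2)⁻¹ + b⁻¹ * ((1 + |u|) ^ 2)⁻¹) :=
    (i1.add (cnv_int.const_mul _)).const_mul _
  calc ∫⁻ u : ℝ, ENNReal.ofReal (((1 + |x - b * u|) ^ N)⁻¹ * ((1 + |u|) ^ (N + 2))⁻¹)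
      ≤ ∫⁻ u : ℝ, ENNReal.ofReal (4 ^ N * ((1 + |x / b|) ^ N)⁻¹ *
      (((1 + |x - b * u|) ^ 2)⁻¹ + b⁻¹ * ((1 + |u|) ^ 2)⁻¹)) :=
        lintegral_mono fun u => ENNReal.ofReal_le_ofReal (cnv_pt N hN b x u hb)
    _ = ENNReal.ofReal (∫ u : ℝ, 4 ^ N * ((1 + |x / b|) ^ N)⁻¹ *
      (((1 + |x - b * u|) ^ 2)⁻¹ + b⁻¹ * ((1 + |u|) ^ 2)⁻¹)) := by
        rw [ofReal_integral_eq_lintegral_ofReal i2]
        exact Filter.Eventually.of_forall fun u => by positivity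
    _ ≤ _ := by
        refine ENNReal.ofReal_le_ofReal ?_
        rw [integral_const_mul, integral_add i1 (cnv_int.const_mul _), integral_const_mul, e1,
          ← hJ]
        have h1 : 4 ^ N * ((1 + |x / b|) ^ N)⁻¹ * (b⁻¹ * J + b⁻¹ * J) =
            4 ^ N * (2 * J) * b⁻¹ * ((1 + |x / b|) ^ N)⁻¹ := by ring
        rw [h1]
        refine mul_le_mul_of_nonneg_right (mul_le_mul_of_nonneg_right (by linarith) ?_) ?_
        · positivity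
        · positivity

end Pool.Agent.H60.HLM
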