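import Pool.Agent.H84.LSB.TargetsHL

/-!
# Board hlm_modules, row HPT
-/

set_option autoImplicit false

open MeasureTheory Set Pool.Agent.H83.G Pool.Agent.H88.B2 Pool.Agent.H84.LSB
open Pool.Agent.H82.FP (Tu)
open scoped ENNReal NNReal RealInnerProductSpace

namespace Pool.Agent.H60.HLM

/-- the weight at a translate in the first direction -/
lemma hpt_ww (hLOA : T_LOA) {m : ℕ} (N : ℕ) (R δ w : ℝ) (W : Pk m) (z : Z m) (u : ℝ)
    (hR : 0 < R) :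
    ww N R δ (R ^ δ) W (z - (w * u, 0, 0)) =
      ((1 + |(fc R δ W.1 z - zc W.2).1 - (R ^ (-δ) * w) * u|) ^ N)⁻¹ *
        ((1 + ‖(fc R δ W.1 z - zc W.2).2‖) ^ N)⁻¹ := by
  have h0 : (R ^ δ / R ^ δ : ℝ) = 1 := div_self (Real.rpow_pos_of_pos hR δ).ne'
  have h1 : Lo (ctr (sR R) W.1) (sR R) ((w * u, 0, 0) : Z m) = (w * u, 0, 0) := by
    unfold Lo
    simp
  have h2 : fc R δ W.1 (z - (w * u, 0, 0)) = fc R δ W.1 z - ((R ^ (-δ) * w) * u, 0, 0) := by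
    unfold fc
    rw [((hLOA m).1 _ _ _ _).2.1, h1, smul_sub]
    congr 1
    ext <;> simp [mul_assoc]
  unfold ww
  rw [h0, one_mul, h2]
  have h3 : (fc R δ W.1 z - ((R ^ (-δ) * w) * u, 0, 0) - zc W.2).1 =
      (fc R δ W.1 z - zc W.2).1 - (R ^ (-δ) * w) * u := by
    simp only [Prod.fst_sub]
    ring
  have h4 : (fc R δ W.1 z - ((R ^ (-δ) * w) * u, 0, 0) - zc W.2).2 =
      (fc R δ W.1 z - zc W.2).2 := by
    simp only [Prod.snd_sub]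
    have : ((0, 0) : E m × ℝ) = 0 := rfl
    rw [this, sub_zero]
  rw [h3, h4]

/-- HPT: pointwise bound of the parts of frequency about `1/w` -/
theorem pf_HPT (hHKN : T_HKN) (hCNV : T_CNV) (hLOA : T_LOA) : T_HPT := by
  intro m N φ hN hφ hφs
  obtain ⟨C1, hC1, h1⟩ := hHKN m (N + 2) φ hφ hφs
  obtain ⟨C2, hC2, h2⟩ := hCNV N hN
  have hC10 : 0 ≤ C1 := by linarith
  have hC20 : 0 ≤ C2 := by linarith
  refine ⟨C1 * C2, one_le_mul_of_one_le_of_one_le hC1 hC2,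
    fun R δ w C₀ W G hR hδ hw hC₀ hG hb z => ?_⟩
  have hR0 : 0 < R := by linarith
  have hRδ : 0 < R ^ δ := Real.rpow_pos_of_pos hR0 δ
  have hw0 : 0 < w := lt_of_lt_of_le hRδ hw
  obtain ⟨-, h3, -⟩ := h1 w G hw0 hG
  obtain ⟨b, hbd⟩ : ∃ b, b = R ^ (-δ) * w := ⟨_, rfl⟩
  have hb1 : 1 ≤ b := by
    rw [hbd, Real.rpow_neg hR0.le, ← div_eq_inv_mul, le_div_iff₀ hRδ, one_mul]
    exact hw
  have hb0 : 0 < b := by linarith
  have hbi : b⁻¹ = R ^ δ / w := by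
    rw [hbd, Real.rpow_neg hR0.le, mul_inv, inv_inv, div_eq_mul_inv]
  obtain ⟨x, hx⟩ : ∃ x, x = (fc R δ W.1 z - zc W.2).1 := ⟨_, rfl⟩
  obtain ⟨q, hq⟩ : ∃ q, q = ((1 + ‖(fc R δ W.1 z - zc W.2).2‖) ^ N)⁻¹ := ⟨_, rfl⟩
  have hq0 : 0 ≤ q := by
    rw [hq]
    positivity
  have hwz : ww N R δ w W z = ((1 + |x / b|) ^ N)⁻¹ * q := by
    have h5 : b⁻¹ * x = x / b := by rw [div_eq_inv_mul]
    unfold ww
    rw [← hx, ← hq, ← hbi, h5]
  have e1 : ∀ u : ℝ, ‖TF G (z - (w * u, 0, 0))‖ₑ ≤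
      ENNReal.ofReal (C₀ * q) * ENNReal.ofReal (((1 + |x - b * u|) ^ N)⁻¹) := by
    intro u
    rw [← ENNReal.ofReal_mul (by positivity), ← ofReal_norm_eq_enorm]
    refine ENNReal.ofReal_le_ofReal ((hb _).trans (le_of_eq ?_))
    rw [hpt_ww hLOA N R δ w W z u hR0, ← hx, ← hq, ← hbd]
    ring
  have e2 : ∫⁻ u : ℝ, ENNReal.ofReal (((1 + |u|) ^ (N + 2))⁻¹) *
      ‖TF G (z - (w * u, 0, 0))‖ₑ ≤
      ENNReal.ofReal (C₀ * q) * ENNReal.ofReal (C2 * b⁻¹ * ((1 + |x / b|) ^ N)⁻¹) := by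
    calc _ ≤ ∫⁻ u : ℝ, ENNReal.ofReal (C₀ * q) *
          ENNReal.ofReal (((1 + |x - b * u|) ^ N)⁻¹ * ((1 + |u|) ^ (N + 2))⁻¹) := by
          refine lintegral_mono fun u => ?_
          refine (mul_le_mul' le_rfl (e1 u)).trans (le_of_eq ?_)
          rw [ENNReal.ofReal_mul (p := ((1 + |x - b * u|) ^ N)⁻¹) (by positivity)]
          ring
      _ = ENNReal.ofReal (C₀ * q) *
          ∫⁻ u : ℝ, ENNReal.ofReal (((1 + |x - b * u|) ^ N)⁻¹ * ((1 + |u|) ^ (N + 2))⁻¹) := by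
          rw [lintegral_const_mul' _ _ ENNReal.ofReal_ne_top]
      _ ≤ _ := mul_le_mul' le_rfl (h2 b x hb1)
  have e3 : ‖TF (mu1 φ w G) z‖ₑ ≤
      ENNReal.ofReal (C1 * C2 * C₀ * (R ^ δ / w) * ww N R δ w W z) := by
    refine (h3 z).trans ((mul_le_mul' le_rfl e2).trans (le_of_eq ?_))
    rw [← ENNReal.ofReal_mul (by positivity), ← ENNReal.ofReal_mul hC10, hwz, hbi]
    congr 1
    ring
  rw [← ofReal_norm_eq_enorm] at e3
  refine (ENNReal.ofReal_le_ofReal_iff ?_).1 e3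
  rw [hwz]
  have : 0 ≤ R ^ δ / w := by positivity
  positivity

end Pool.Agent.H60.HLM
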